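import Mathlib
import Pool.Agent.Helper801_ASC.Gap2

open Cardinal Ordinal Set Pool.Agent.Helper801_ASC

universe u

/-- Let `κ` be the least almost strongly compact cardinal and also the least `ω₁`-strongly compact
cardinal. Then either `κ` is strongly compact, or `κ` is inaccessible and there is a closed
unbounded subset of `κ` such that every cardinal `θ` in it is a strong limit cardinal, every
singular `θ` in it satisfies `2 ^ θ > θ^{+θ}`, and whenever `ℵ₁ ≤ δ < θ` and `cf(θ)` carries no
uniform `δ`-complete ultrafilter, then `2 ^ θ > θ^{+θ}` and the least cardinal `lam ≥ θ` which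
carries a uniform `δ`-complete ultrafilter satisfies `θ^{+δ} ≤ lam ≤ 2 ^ θ` and is weakly
inaccessible or one of `η`, `η⁺` for a singular `η` whose cofinality is in `[δ, θ)` and carries a
uniform `δ`-complete ultrafilter. -/
theorem Pool.Agent.Results.MP_10ded2_lc.CardinalGap.result (κ : Cardinal.{u})
    (h₁ : IsLeast {μ : Cardinal.{u} | AlmostStronglyCompact μ} κ)
    (h₂ : IsLeast {μ : Cardinal.{u} | OmegaOneStronglyCompact μ} κ) :
    StronglyCompact κ ∨
      (κ.IsInaccessible ∧ ∃ C : Set Ordinal.{u}, IsClubBelow κ C ∧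
        ∀ θ : Cardinal.{u}, θ.ord ∈ C →
          θ.IsStrongLimit ∧ (θ.IsSingular → plusCard θ θ.ord < 2 ^ θ) ∧
          ∀ δ : Cardinal.{u}, ℵ₁ ≤ δ → δ < θ → ¬ CarriesUniform δ θ.ord.cof →
            plusCard θ θ.ord < 2 ^ θ ∧
            ∃ lam : Cardinal.{u}, FirstUniform δ θ lam ∧
              plusCard θ δ.ord ≤ lam ∧ lam ≤ 2 ^ θ) := by
  classical
  by_cases hns : StronglyCompact κ
  · exact Or.inl hns
  right
  have hleast : ∀ μ < κ, ¬ OmegaOneStronglyCompact μ := fun μ hμ h =>
    absurd (h₂.2 h) (not_le.2 hμ)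
  obtain ⟨hinac, H, hH, hst⟩ := gap_main h₁.1 h₂.1 hleast hns
  exact ⟨hinac, ClosedUnder κ H,
    isClubBelow_closedUnder hinac.isRegular hinac.aleph0_lt hH, hst⟩
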