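import Mathlib
import Pool.Agent.Helper801_ASC.Crit

open Cardinal Ordinal Set Pool.Agent.Helper801_ASC

universe u

/-- Let `κ` be an almost strongly compact cardinal which is inaccessible or is the least
`ω₁`-strongly compact cardinal. Then `κ` is strongly compact if and only if there is a
`κ`-decomposable ultrafilter `U` such that for stationarily many cardinals `θ < κ` there is no
cardinal `lam` with `θ ≤ lam ≤ 2 ^ θ` for which `U` is `lam`-decomposable. -/
theorem Pool.Agent.Results.MP_10ded2_lc.Indecomposable.result (κ : Cardinal.{u})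
    (hκ : AlmostStronglyCompact κ)
    (hκ' : κ.IsInaccessible ∨ IsLeast {μ : Cardinal.{u} | OmegaOneStronglyCompact μ} κ) :
    StronglyCompact κ ↔
      ∃ (I : Type u) (U : Ultrafilter I), Decomp U κ ∧
        IsStationaryBelow κ {α | ∃ θ : Cardinal.{u}, θ.ord = α ∧
          ∀ lam : Cardinal.{u}, θ ≤ lam → lam ≤ 2 ^ θ → ¬ Decomp U lam} := by
  classical
  have hrl : κ.IsRegular ∧ Order.IsSuccLimit κ := by
    rcases hκ' with h | h
    · exact ⟨h.isRegular, IsStrongLimit.isSuccLimit ⟨h.isRegular.pos.ne', h.isStrongPrelimit⟩⟩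
    · have hleast : ∀ μ < κ, ¬ OmegaOneStronglyCompact μ := fun μ hμ h' =>
        absurd (h.2 h') (not_le.2 hμ)
      have hreg := isRegular_of_least hκ hleast
      exact ⟨hreg, isSuccLimit_of_least hreg hκ.1 h.1 hleast⟩
  obtain ⟨hreg, hlim⟩ := hrl
  have h0 : ℵ₀ < κ := aleph0_lt_aleph_one.trans hκ.1
  have hsl := strongLimit_of_limit hκ hreg hlim
  constructor
  · intro h
    obtain ⟨U, hU1, hU2⟩ := exists_uniform hreg h κ.ord.ToType (mk_ord_toType κ)
    refine ⟨κ.ord.ToType, U, ⟨κ.ord.ToType, id, mk_ord_toType κ, hU2⟩, fun C hC => ?_⟩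
    obtain ⟨θ, hθ1, hθ2, hθ3, -⟩ := club_has_card hreg h0 hlim hC id (fun c hc => hc)
    refine ⟨θ.ord, ⟨θ, rfl, fun lam h1 h2 => ?_⟩, hθ1⟩
    exact not_decomp_of_lt hU1 ((one_lt_aleph0.trans hθ2).trans_le h1) (h2.trans_lt (hsl _ hθ3))
  · rintro ⟨I, U, ⟨T, f, hT, hf⟩, hst⟩
    by_contra hns
    have hn : ∀ γ < κ, ∃ lam, γ < lam ∧ lam < κ ∧ Decomp U lam := by
      intro γ hγ
      by_contra hcon
      refine hns (stronglyCompact_of_indecomposable hκ hreg hlim hT (U := U.map f) hf hγ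
        (fun lam h1 h2 => ?_))
      rintro ⟨S, g, hS, hg⟩
      exact hcon ⟨lam, h1, h2, S, g ∘ f, hS, hg⟩
    choose! n hn1 hn2 hn3 using hn
    have hclub : IsClubBelow κ (ClosedUnder κ fun _ α => max (ω : Ordinal.{u}) (n α.card).ord) := by
      refine isClubBelow_closedUnder hreg h0 fun ε _ α hα => max_lt ?_ ?_
      · rw [← ord_aleph0]
        exact ord_lt_ord.2 h0
      · exact ord_lt_ord.2 (hn2 _ (lt_ord.1 hα))
    obtain ⟨α, ⟨θ, rfl, hθ⟩, hα1, hα2, hα3⟩ := hst _ hclub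
    have hθκ : θ < κ := ord_lt_ord.1 hα1
    have h0θ : (0 : Ordinal) < θ.ord := pos_iff_ne_zero.2 hα2
    have hθ0 : ℵ₀ ≤ θ := by
      have h1 := (le_max_left _ _).trans_lt (hα3 0 h0θ 0 h0θ)
      rw [← ord_aleph0] at h1
      exact (ord_lt_ord.1 h1).le
    obtain ⟨lam, hl1, hl2, hl3⟩ := exists_decomp_between (U := U) hθ0 (fun ν hν => by
      have h1 := (le_max_right _ _).trans_lt (hα3 0 h0θ ν.ord (ord_lt_ord.2 hν))
      simp only [card_ord] at h1
      exact ⟨n ν, hn1 ν (hν.trans hθκ), ord_lt_ord.1 h1, hn3 ν (hν.trans hθκ)⟩)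
    exact hθ lam hl1 hl2 hl3
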