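import Mathlib
import Pool.Agent.Helper801_ASC.Gap2
import Pool.Agent.Helper801_ASC.Reflect

open Cardinal Ordinal Set Pool.Agent.Helper801_ASC

universe u

/-- Let `κ` be the least almost strongly compact cardinal and also the least `ω₁`-strongly compact
cardinal, let `ℵ₁ ≤ δ < κ`, and let `X i` be fewer than `δ` stationary subsets of `κ` all of whose
members are ordinals with a cofinality that carries no uniform `δ`-complete ultrafilter. Then for
stationarily many inaccessible `θ < κ` which carry no uniform `δ`-complete ultrafilter all the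
sets `X i` reflect at `θ`; moreover `2 ^ θ > θ^{+θ}` for these `θ` unless `κ` is strongly
compact. -/
theorem Pool.Agent.Results.MP_10ded2_lc.Reflection.result (κ : Cardinal.{u})
    (h₁ : IsLeast {μ : Cardinal.{u} | AlmostStronglyCompact μ} κ)
    (h₂ : IsLeast {μ : Cardinal.{u} | OmegaOneStronglyCompact μ} κ)
    (δ : Cardinal.{u}) (hδ : ℵ₁ ≤ δ) (hδκ : δ < κ) (ι : Type u) (X : ι → Set Ordinal.{u})
    (hι : #ι < δ) (hX : ∀ i, IsStationaryBelow κ (X i))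
    (hX' : ∀ i, ∀ α ∈ X i, ¬ CarriesUniform δ α.cof) :
    IsStationaryBelow κ {β : Ordinal.{u} | ∃ θ : Cardinal.{u}, θ.ord = β ∧
      θ.IsInaccessible ∧ ¬ CarriesUniform δ θ ∧ (∀ i, IsStationaryBelow θ (X i)) ∧
        (StronglyCompact κ ∨ plusCard θ θ.ord < 2 ^ θ)} := by
  classical
  have hleast : ∀ μ < κ, ¬ OmegaOneStronglyCompact μ := fun μ hμ h =>
    absurd (h₂.2 h) (not_le.2 hμ)
  have hreg : κ.IsRegular := isRegular_of_least h₁.1 hleast
  have hlim : Order.IsSuccLimit κ := isSuccLimit_of_least hreg h₁.1.1 h₂.1 hleast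
  have hsl := strongLimit_of_limit h₁.1 hreg hlim
  have h0 : ℵ₀ < κ := aleph0_lt_aleph_one.trans h₁.1.1
  obtain ⟨H, hH, hst⟩ : ∃ H : Ordinal.{u} → Ordinal.{u} → Ordinal.{u},
      (∀ ε < κ.ord, ∀ α < κ.ord, H ε α < κ.ord) ∧ ∀ θ : Cardinal.{u},
        θ.ord ∈ ClosedUnder κ H → (∀ c < θ, 2 ^ c < θ) ∧
          (θ.IsRegular → δ < θ → ¬ CarriesUniform δ θ →
            StronglyCompact κ ∨ plusCard θ θ.ord < 2 ^ θ) := by
    by_cases hns : StronglyCompact κ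
    · refine ⟨fun _ α => (2 ^ α.card : Cardinal.{u}).ord, fun _ _ α hα =>
        ord_lt_ord.2 (hsl _ (lt_ord.1 hα)), fun θ hθ => ⟨fun c hc => ?_, fun _ _ _ => Or.inl hns⟩⟩
      have h2 := hθ.2.2 0 (pos_iff_ne_zero.2 hθ.2.1) c.ord (ord_lt_ord.2 hc)
      simp only [card_ord] at h2
      exact ord_lt_ord.1 h2
    · obtain ⟨-, H, hH, hst⟩ := gap_main h₁.1 h₂.1 hleast hns
      refine ⟨H, hH, fun θ hθ => ⟨fun c hc => (hst θ hθ).1.two_power_lt hc,
        fun hr h1 h2 => Or.inr ((hst θ hθ).2.2 δ hδ h1 ?_).1⟩⟩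
      rwa [hr.cof_ord]
  have hclub := isClubBelow_closedUnder hreg h0 hH
  intro C hC
  obtain ⟨U, hU1, hU2, hU3, hU4⟩ := ketonen_regularD hδ hreg h₁.1.1 h₂.1 hleast
    (h₁.1.2 δ (aleph0_lt_aleph_one.trans_le hδ) hδκ)
  have href : ∀ᶠ x in (U : Filter κ.ord.ToType), ∀ i, ∀ θ : Cardinal.{u},
      θ.ord = (x.toOrd : Ordinal) → IsStationaryBelow θ (X i) :=
    ev_forall hU1 hι (fun i => reflect_one hreg h0 hU1 hU2 hU3 (hX i) (hX' i))
  obtain ⟨x, ⟨⟨hx1, hx2⟩, ⟨hx3, hx4⟩⟩, hx5⟩ := ((((club_mem hreg hU2 hU3 hC).and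
    (club_mem hreg hU2 hU3 hclub)).and (hU4.and (hU2.2 _
      (ord_lt_ord.2 (Order.IsSuccLimit.succ_lt hlim hδκ))))).and href).exists
  obtain ⟨θ, hθr, hθx, hθn⟩ := hx3
  have hx5' := fun i => hx5 i θ hθx.symm
  simp only [hθx] at hx1 hx2 hx4
  have h1θ : δ < θ := Order.succ_le_iff.1 (ord_le_ord.1 hx4)
  obtain ⟨ha, hb⟩ := hst θ hx2
  exact ⟨θ.ord, ⟨θ, rfl, ⟨(aleph0_lt_aleph_one.trans_le hδ).trans h1θ, hθr.le_cof_ord,
    fun c hc => ha c hc⟩, hθn, hx5', hb hθr h1θ hθn⟩, hx1⟩
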