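import Mathlib
import Pool.Agent.Helper801_ASC.Slim2

open Cardinal Ordinal Set Pool.Agent.Helper801_ASC

universe u

/-- Let `κ` be the least almost strongly compact cardinal and also the least `ω₁`-strongly compact
cardinal, let `lam ≥ κ`, and let `d` be a list on `P_κ(lam)`. Suppose that for stationarily many
`b` in `P_κ(lam)`, `b ∩ κ` is a cardinal `θ` and for some uncountable `δ < θ` either `θ` carries no
uniform `δ`-complete ultrafilter (for instance, `θ` is singular) and `d` has fewer than `θ^{+θ}`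
traces on `b`, or no cardinal between `θ` and the number of traces of `d` on `b` carries a uniform
`δ`-complete ultrafilter. Then `d` has a cofinal branch. -/
theorem Pool.Agent.Results.MP_10ded2_lc.SlimLists.result (κ lam : Cardinal.{u})
    (h₁ : IsLeast {μ : Cardinal.{u} | AlmostStronglyCompact μ} κ)
    (h₂ : IsLeast {μ : Cardinal.{u} | OmegaOneStronglyCompact μ} κ) (hlam : κ ≤ lam)
    (d : PK κ lam → Set lam.ord.ToType)
    (hslim : IsStationaryPK {b : PK κ lam | ∃ θ δ : Cardinal.{u}, MeetIs b θ ∧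
      ℵ₁ ≤ δ ∧ δ < θ ∧
      ((¬ CarriesUniform δ θ ∧ #(traces d b) < plusCard θ θ.ord) ∨
        ∀ μ : Cardinal.{u}, θ ≤ μ → μ ≤ #(traces d b) → ¬ CarriesUniform δ μ)}) :
    ∃ D : Set lam.ord.ToType, IsCofinalBranch d D := by
  have hleast : ∀ μ < κ, ¬ OmegaOneStronglyCompact μ := fun μ hμ h =>
    absurd (h₂.2 h) (not_le.2 hμ)
  exact slim_main h₁.1 h₂.1 hleast hlam d hslim
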